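import Pool.Agent.N19.GR.Main

/-!
# Galois representations attached to eigenclasses: reduction to special base fields

See `Pool.Agent.N19.GR.Def` for the definitions.
-/

set_option autoImplicit false

namespace Pool.Agent.Results.MP_976e2b_nt.SpecialBaseFields

open NumberField IsDedekindDomain
open Pool.Agent.N19.BR.TDef (FieldList)
open Pool.Agent.N19.BR.MDef (HyperelementaryList)
open Pool.Agent.N19.GR.Def

/-- For all number fields `K`, finite Galois extensions `L / K`, finite sets `S` of primes of `K` and
`m ≥ 1` there is a list of fields `F_j` between `K` and `K̄` with hyperelementary groups `Gal(L F_j / F_j)`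
and with prescribed divisibility of the local degrees at the primes in `S`, such that all families of
irreducible Galois representations over the `F_j` attached to the base changes of a system of Frobenius
eigenvalues over `K` come from an irreducible representation over `K` attached to that system. -/
theorem result (K : Type) [Field K] [NumberField K] (L : Type) [Field L] [NumberField L]
    [Algebra K L] [IsGalois K L] (S : Set (HeightOneSpectrum (𝓞 K))) (hS : S.Finite) (m : ℕ)
    (hm : m ≠ 0) : ∃ Y : FieldList K, HyperelementaryList L S m Y ∧ Patches Y := by
  obtain ⟨Y, h1, h2⟩ := Pool.Agent.N19.BR.hyper_list K L S hS m hm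
  exact ⟨Y, h1, Pool.Agent.N19.GR.patches_of_rel h2⟩

end Pool.Agent.Results.MP_976e2b_nt.SpecialBaseFields
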